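import Pool.Agent.Helper24.AS.Final

set_option autoImplicit false

namespace Pool.Agent.Results.MP_120218_co.AlmostAllPrimes

open Finset

/-- **The integers composed of almost any set of primes: almost all `k`-fold sums are distinct, for
all large sets.** Let `k ≥ 1`. There is `c > 0` such that for every `y`, every finite set `Q` of
primes `≤ y` and every `n` with `1 ≤ n ≤ c |Q|` and `|Q| ≥ y^(d^c)`, where `d = n / |Q|` (for
instance `|Q| ≥ y^t` with a fixed `t > 0`, and `d` small in terms of `t`), the following holds. All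
but at most a fraction `d^(c + d n)` of the `n`-element subsets `P` of `Q` (the exceptional ones
form the set `B`) have the property:

for every finite set `A` of non-zero integers such that for all `a, b ∈ A` the numerator of the
reduced fraction `a / b` is, up to sign, a product of at most `n d^(-c)` primes of `P` (repetitions
allowed; for instance all elements of `A` are, up to sign, products of at most `n d^(-c)` primes of
`P`), if `|A| ≥ exp (n d^c)` then `|kA| ≥ (1 - k^2 / |A|^(1/2)) |A|^k / k!`. -/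
theorem result (k : ℕ) (hk : 1 ≤ k) :
    ∃ c : ℝ, 0 < c ∧ ∀ (y : ℕ) (Q : Finset ℕ), (∀ q ∈ Q, q.Prime ∧ q ≤ y) →
      ∀ n : ℕ, 1 ≤ n → (n : ℝ) ≤ c * Q.card → (y : ℝ) ^ (((n : ℝ) / Q.card) ^ c) ≤ Q.card →
      ∃ B ⊆ Q.powersetCard n,
        (B.card : ℝ) ≤ ((n : ℝ) / Q.card) ^ (c + (n : ℝ) ^ 2 / Q.card) *
          (Q.powersetCard n).card ∧
        ∀ P ∈ Q.powersetCard n, P ∉ B → ∀ A : Finset ℤ, (0 : ℤ) ∉ A →
          (∀ a ∈ A, ∀ b ∈ A, ((a : ℚ) / b).num.natAbs.primeFactors ⊆ P ∧
            ((((a : ℚ) / b).num.natAbs.primeFactorsList.length : ℕ) : ℝ) ≤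
              n * ((Q.card : ℝ) / n) ^ c) →
          Real.exp (n * ((n : ℝ) / Q.card) ^ c) ≤ A.card →
          (1 - (k : ℝ) ^ 2 / Real.sqrt A.card) * ((A.card : ℝ) ^ k / k.factorial) ≤
            (((Fintype.piFinset (fun _ : Fin k => A)).image
              (fun f : Fin k → ℤ => ∑ i, f i)).card : ℝ) := by
  obtain ⟨c, hc, h⟩ := Pool.Agent.Helper24.AS.final k hk
  exact ⟨c, hc, h⟩

end Pool.Agent.Results.MP_120218_co.AlmostAllPrimes
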