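import Pool.Agent.Helper88.GP.Link
import Pool.Agent.Helper88.GQ.Main4

set_option autoImplicit false

namespace Pool.Agent.Results.MP_120218_co.AlmostAllRelabelings

open Finset

/-- The integer obtained from `a` by applying the permutation `π` of the finite set of primes `P` to
the prime factors of `a` that lie in `P`; the sign and the other prime factors are kept. -/
def act (P : Finset ℕ) (π : Equiv.Perm P) (a : ℤ) : ℤ :=
  a.sign * ∏ p ∈ a.natAbs.primeFactors,
    ((if h : p ∈ P then (π ⟨p, h⟩ : ℕ) else p : ℕ) : ℤ) ^ padicValNat p a.natAbs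

/-- The elements `x` of `B` with `v_p(x) ≠ v_p(g)` for at most `log b` primes `p ∈ P`. -/
noncomputable def near (P : Finset ℕ) (b : ℝ) (B : Finset ℤ) (g : ℤ) : Finset ℤ :=
  B.filter fun x => ((P.filter fun p => padicValInt p x ≠ padicValInt p g).card : ℝ) ≤ Real.log b

/-- **The Erdős–Szemerédi conjecture for almost all sets with a given multiplicative structure.**
Let `k ≥ 1` and `ε > 0`. There is `c > 0` such that the following holds. Let `P` be a finite set of
primes `≤ y`, `L ≥ 0` an integer and `0 < θ ≤ c` with `y ^ L ≤ |P| ^ (θ |P|)`. Let `A` be any finite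
set of non-zero integers such that for all `a, b ∈ A` the numerator of the reduced fraction `a / b`
is, up to sign, a product of at most `L` primes of `P`, repetitions allowed (for instance all
elements of `A` are, up to sign, such products). Then for every real `b ≥ 1` all but at most
`|A|^(2k) θ^(c log b) |P|!` permutations `π` of `P` have the following properties, for every subset
`B` of `A` with `|B| ≥ b` and its image `B' = π(B)`:

(1) `max (|kB'|, |B'^k|) ≥ c |B|^(k - ε)`;

(2) if for each `g ∈ B` at most `m` elements `x` of `B` have `v_p(x) ≠ v_p(g)` for at most `log b`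
primes `p ∈ P`, then `|kB'| ≥ (1 - k^2 m / (2 |B|)) |B|^k / k!` (so almost all `k`-fold sums of
elements of `B'` are distinct if `m` is much smaller than `|B|`). -/
theorem result (k : ℕ) (hk : 1 ≤ k) (ε : ℝ) (hε : 0 < ε) :
    ∃ c : ℝ, 0 < c ∧ ∀ (y : ℕ) (P : Finset ℕ), (∀ q ∈ P, q.Prime ∧ q ≤ y) →
      ∀ (L : ℕ) (θ : ℝ), 0 < θ → θ ≤ c → (y : ℝ) ^ L ≤ (P.card : ℝ) ^ (θ * P.card) →
      ∀ A : Finset ℤ, (0 : ℤ) ∉ A →
        (∀ a ∈ A, ∀ b ∈ A, ((a : ℚ) / b).num.natAbs.primeFactors ⊆ P ∧
          ((a : ℚ) / b).num.natAbs.primeFactorsList.length ≤ L) →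
        ∀ b : ℝ, 1 ≤ b →
          (Nat.card {π : Equiv.Perm P // ¬ ∀ B ⊆ A, b ≤ B.card →
            (c * (B.card : ℝ) ^ ((k : ℝ) - ε) ≤
              max (((Fintype.piFinset (fun _ : Fin k => B.image (act P π))).image
                (fun f : Fin k → ℤ => ∑ i, f i)).card : ℝ)
              (((Fintype.piFinset (fun _ : Fin k => B.image (act P π))).image
                (fun f : Fin k → ℤ => ∏ i, f i)).card : ℝ)) ∧
            ∀ m : ℕ, (∀ g ∈ B, (near P b B g).card ≤ m) →
              (1 - (k : ℝ) ^ 2 * m / (2 * B.card)) * (B.card : ℝ) ^ k ≤ (k.factorial : ℝ) *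
              (((Fintype.piFinset (fun _ : Fin k => B.image (act P π))).image
                (fun f : Fin k → ℤ => ∑ i, f i)).card : ℝ)} : ℝ) ≤
            (A.card : ℝ) ^ (2 * k) * θ ^ (c * Real.log b) * (P.card.factorial : ℝ) := by
  obtain ⟨c, hc, h⟩ := Pool.Agent.Helper88.GQ.gq4 k hk ε hε (Pool.Agent.Helper88.GP.fewH k hk ε hε)
  refine ⟨c, hc, fun y P hP L θ hθ hθc hy A h0 hA b hb => ?_⟩
  have hLy : (L : ℝ) * Real.log y ≤ θ * (P.card * Real.log P.card) := by
    rcases Nat.eq_zero_or_pos y with rfl | hy0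
    · rw [Nat.cast_zero, Real.log_zero, mul_zero]
      have : 0 ≤ Real.log (P.card : ℝ) := Real.log_natCast_nonneg _
      positivity
    have hyr : (0 : ℝ) < y := by exact_mod_cast hy0
    have h1 := Real.log_le_log (by positivity) hy
    rw [Real.log_pow] at h1
    refine h1.trans (le_of_eq ?_)
    rcases Nat.eq_zero_or_pos P.card with hP0 | hP0
    · rw [hP0]; simp
    · rw [Real.log_rpow (by exact_mod_cast hP0)]; ring
  refine le_trans ?_ (h y P hP L θ hθ hθc hLy A h0 hA b hb)
  have hsub : ∀ π : Equiv.Perm P, (¬ ∀ B ⊆ A, b ≤ B.card →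
            (c * (B.card : ℝ) ^ ((k : ℝ) - ε) ≤
              max (((Fintype.piFinset (fun _ : Fin k => B.image (act P π))).image
                (fun f : Fin k → ℤ => ∑ i, f i)).card : ℝ)
              (((Fintype.piFinset (fun _ : Fin k => B.image (act P π))).image
                (fun f : Fin k → ℤ => ∏ i, f i)).card : ℝ)) ∧
            ∀ m : ℕ, (∀ g ∈ B, (near P b B g).card ≤ m) →
              (1 - (k : ℝ) ^ 2 * m / (2 * B.card)) * (B.card : ℝ) ^ k ≤ (k.factorial : ℝ) *
              (((Fintype.piFinset (fun _ : Fin k => B.image (act P π))).image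
                (fun f : Fin k → ℤ => ∑ i, f i)).card : ℝ)) →
      ∃ B ⊆ A, b ≤ B.card ∧
            (Pool.Agent.Helper88.GP.mx k (B.image (Pool.Agent.Helper88.GQ.act P π)) <
                c * (B.card : ℝ) ^ ((k : ℝ) - ε) ∨
            ∃ m : ℕ, (∀ g ∈ B, (B.filter fun x =>
                ((P.filter fun p => padicValInt p x ≠ padicValInt p g).card : ℝ) ≤
                  Real.log b).card ≤ m) ∧
              (k.factorial : ℝ) * Pool.Agent.Helper88.GQ.sm k
                (B.image (Pool.Agent.Helper88.GQ.act P π)) <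
                (1 - (k : ℝ) ^ 2 * m / (2 * B.card)) * (B.card : ℝ) ^ k) := by
    intro π hπ
    by_contra hcon
    apply hπ
    intro B hBA hBb
    refine ⟨?_, fun m hm => ?_⟩
    · by_contra hlt
      exact hcon ⟨B, hBA, hBb, Or.inl (not_le.1 hlt)⟩
    · by_contra hlt
      exact hcon ⟨B, hBA, hBb, Or.inr ⟨m, hm, not_le.1 hlt⟩⟩
  have hc2 := Nat.card_mono (Set.toFinite {π : Equiv.Perm P | ∃ B ⊆ A, b ≤ B.card ∧
            (Pool.Agent.Helper88.GP.mx k (B.image (Pool.Agent.Helper88.GQ.act P π)) <
                c * (B.card : ℝ) ^ ((k : ℝ) - ε) ∨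
            ∃ m : ℕ, (∀ g ∈ B, (B.filter fun x =>
                ((P.filter fun p => padicValInt p x ≠ padicValInt p g).card : ℝ) ≤
                  Real.log b).card ≤ m) ∧
              (k.factorial : ℝ) * Pool.Agent.Helper88.GQ.sm k
                (B.image (Pool.Agent.Helper88.GQ.act P π)) <
                (1 - (k : ℝ) ^ 2 * m / (2 * B.card)) * (B.card : ℝ) ^ k)}) hsub
  exact Nat.cast_le.2 hc2

end Pool.Agent.Results.MP_120218_co.AlmostAllRelabelings
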