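import Pool.Agent.Helper2.IS.CorJ
import Pool.Agent.Helper2.IS.Sharp

set_option autoImplicit false

namespace Pool.Agent.Results.MP_120218_co.GcdIsolation

open Finset

/-- **Product sets are of maximal size, unless large common divisors are everywhere.**

(1) For all `k ≥ 1` and `ε > 0` there is `M` such that for every `j ≥ 2` there is `c > 0` such that
every finite non-empty set `A` of integers, with `N = |A|` and `H = N ^ (c log log N)`, satisfies
`|A^k| ≥ c N^(k - ε)`, or there is a subset `E` of `A` of at most `N^(1-c)` elements such that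
* among any `M j` elements of `A \ E` there are `j` different ones whose greatest common divisor is
  larger than `H`;
* in particular every progression `r + Q t`, `t` in an interval of length `H`, with `r` and `Q`
  coprime, contains fewer than `M j` elements of `A \ E`; and
* for every finite set `X` of affine maps `a ↦ (v a + w) / u` with integers `u ≠ 0`, `v ≠ 0`, `w`,
  written as triples `(u, v, w)`, such that `0 < |u w' - u' w| ≤ H` for any two different members,
  every number `y` is the value at `a` of the map `x` for fewer than `M j` pairs `(a, x)`,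
  `a ∈ A \ E`, `x ∈ X`. For example `u = v = 1`: the translations by the elements of a set
  contained in an interval of length `H`.

(2) The range `N ^ (c log log N)` is optimal: there are a constant `C` and sets `A` of integers
between `1` and `N ^ (C log log N)`, `N = |A|` as large as we like, with
`|A^k| ≤ N ^ (log_2 (k + 1))` for all `k`. -/
theorem result :
    (∀ k : ℕ, 1 ≤ k → ∀ ε : ℝ, 0 < ε → ∃ M : ℕ, ∀ j : ℕ, 2 ≤ j → ∃ c : ℝ, 0 < c ∧
      ∀ A : Finset ℤ, A.Nonempty →
        c * (A.card : ℝ) ^ ((k : ℝ) - ε) ≤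
          (((Fintype.piFinset (fun _ : Fin k => A)).image
            (fun f : Fin k → ℤ => ∏ i, f i)).card : ℝ) ∨
        ∃ E ⊆ A, (E.card : ℝ) ≤ (A.card : ℝ) ^ (1 - c) ∧
          (∀ S ⊆ A \ E, M * j ≤ S.card → ∃ T ⊆ S, T.card = j ∧
            (A.card : ℝ) ^ (c * Real.log (Real.log A.card)) < ((T.gcd Int.natAbs : ℕ) : ℝ)) ∧
          (∀ r Q : ℤ, IsCoprime r Q → ∀ u : ℝ, ∀ S ⊆ A \ E,
            (∀ a ∈ S, ∃ t : ℤ, a = r + Q * t ∧ u ≤ t ∧
              (t : ℝ) ≤ u + (A.card : ℝ) ^ (c * Real.log (Real.log A.card))) →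
                S.card < M * j) ∧
          ∀ X : Finset (ℤ × ℤ × ℤ), (∀ x ∈ X, x.1 ≠ 0 ∧ x.2.1 ≠ 0) →
            (∀ x ∈ X, ∀ x' ∈ X, x ≠ x' → x.1 * x'.2.2 - x'.1 * x.2.2 ≠ 0 ∧
              ((|x.1 * x'.2.2 - x'.1 * x.2.2| : ℤ) : ℝ) ≤
                (A.card : ℝ) ^ (c * Real.log (Real.log A.card))) →
            ∀ y : ℚ, (((A \ E) ×ˢ X).filter
              (fun z => ((z.2.2.1 : ℚ) * z.1 + z.2.2.2) / z.2.1 = y)).card < M * j) ∧
    (∃ C : ℝ, 0 < C ∧ ∀ n : ℕ, ∃ A : Finset ℤ, n ≤ A.card ∧
      (∀ a ∈ A, 0 < a ∧ (a : ℝ) ≤ (A.card : ℝ) ^ (C * Real.log (Real.log A.card))) ∧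
      ∀ k : ℕ, (((Fintype.piFinset (fun _ : Fin k => A)).image
          (fun f : Fin k → ℤ => ∏ i, f i)).card : ℝ) ≤
        (A.card : ℝ) ^ (Real.logb 2 (k + 1))) :=
  ⟨fun k hk ε hε => Pool.Agent.Helper2.IS.mainJ' k hk ε hε, Pool.Agent.Helper2.IS.sharp⟩

end Pool.Agent.Results.MP_120218_co.GcdIsolation
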